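import Pool.Agent.MP_8be872_ag.H38.Spec

/-! Weyl group combinatorics for a loop free quiver. -/

namespace Pool.Agent.MP_8be872_ag.H86

open Finset Pool.Agent.MP_8be872_ag.H38

variable (Q : Quiv)

/-- simple root -/
abbrev sr (i : Fin Q.n) : Fin Q.n → ℤ := Pi.single i 1

theorem single_eq (i : Fin Q.n) (c : ℤ) : (Pi.single i c : Fin Q.n → ℤ) = c • sr Q i := by
  ext k
  by_cases h : k = i
  · subst h; simp [sr]
  · simp [sr, h]

theorem form_symm (a b : Fin Q.n → ℤ) : form Q a b = form Q b a := by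
  unfold form
  congr 1
  · congr 1
    exact Finset.sum_congr rfl fun i _ => mul_comm _ _
  · exact Finset.sum_congr rfl fun e _ => by ring

theorem form_add_right (a b c : Fin Q.n → ℤ) : form Q a (b + c) = form Q a b + form Q a c := by
  unfold form
  simp only [Pi.add_apply, mul_add, Finset.sum_add_distrib]
  ring

theorem form_smul_right (a b : Fin Q.n → ℤ) (c : ℤ) : form Q a (c • b) = c * form Q a b := by
  unfold form
  simp only [Pi.smul_apply, smul_eq_mul, mul_sub, Finset.mul_sum]
  congr 1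
  · exact Finset.sum_congr rfl fun i _ => by ring
  · exact Finset.sum_congr rfl fun e _ => by ring

theorem form_sub_right (a b c : Fin Q.n → ℤ) : form Q a (b - c) = form Q a b - form Q a c := by
  have := form_add_right Q a (b - c) c
  rw [sub_add_cancel] at this
  omega

theorem form_sub_left (a b c : Fin Q.n → ℤ) : form Q (a - b) c = form Q a c - form Q b c := by
  rw [form_symm, form_sub_right, form_symm Q c, form_symm Q c]

theorem form_smul_left (a b : Fin Q.n → ℤ) (c : ℤ) : form Q (c • a) b = c * form Q a b := by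
  rw [form_symm, form_smul_right, form_symm]

theorem form_zero_right (a : Fin Q.n → ℤ) : form Q a 0 = 0 := by
  simp [form]

theorem form_sr_self (hQ : ∀ e, Q.hd e ≠ Q.tl e) (i : Fin Q.n) :
    form Q (sr Q i) (sr Q i) = 2 := by
  unfold form
  have h1 : ∑ k, sr Q i k * sr Q i k = 1 := by
    rw [Finset.sum_eq_single i]
    · simp [sr]
    · intro k _ hk; simp [sr, hk]
    · simp
  have h2 : ∑ e, (sr Q i (Q.hd e) * sr Q i (Q.tl e) + sr Q i (Q.tl e) * sr Q i (Q.hd e)) = 0 := by
    refine Finset.sum_eq_zero fun e _ => ?_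
    by_cases h : Q.hd e = i
    · have h' : Q.tl e ≠ i := fun h'' => hQ e (h.trans h''.symm)
      simp [sr, h']
    · simp [sr, h]
  rw [h1, h2]; norm_num

theorem sr_nonneg (i : Fin Q.n) : 0 ≤ sr Q i := by
  intro k
  by_cases h : k = i
  · subst h; simp [sr]
  · simp [sr, h]

theorem form_sr_ne {i j : Fin Q.n} (h : i ≠ j) : form Q (sr Q i) (sr Q j) ≤ 0 := by
  unfold form
  have h1 : ∑ k, sr Q i k * sr Q j k = 0 := by
    refine Finset.sum_eq_zero fun k _ => ?_
    by_cases hk : k = i
    · subst hk; simp [sr, h]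
    · simp [sr, hk]
  have h2 : 0 ≤ ∑ e, (sr Q i (Q.hd e) * sr Q j (Q.tl e) + sr Q i (Q.tl e) * sr Q j (Q.hd e)) :=
    Finset.sum_nonneg fun e _ =>
      add_nonneg (mul_nonneg (sr_nonneg Q i _) (sr_nonneg Q j _))
        (mul_nonneg (sr_nonneg Q i _) (sr_nonneg Q j _))
  rw [h1]; omega

variable (w : Fin Q.n → ℕ)

theorem pairing_add_smul (u b α : Fin Q.n → ℤ) (c : ℤ) :
    pairing Q w (u + c • b) α = pairing Q w u α - c * form Q α b := by
  unfold pairing
  rw [form_add_right, form_smul_right]; ring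

theorem pairing_sub_smul (u α β : Fin Q.n → ℤ) (c : ℤ) :
    pairing Q w u (α - c • β) = pairing Q w u α - c * pairing Q w u β := by
  unfold pairing
  rw [form_sub_left, form_smul_left]
  simp only [Pi.sub_apply, Pi.smul_apply, smul_eq_mul, sub_mul, Finset.sum_sub_distrib, mul_sub,
    Finset.mul_sum, mul_assoc]
  ring

theorem pairing_smul (u β : Fin Q.n → ℤ) (c : ℤ) :
    pairing Q w u (c • β) = c * pairing Q w u β := by
  unfold pairing
  rw [form_smul_left]
  simp only [Pi.smul_apply, smul_eq_mul, mul_sub, Finset.mul_sum, mul_assoc]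

/-- the dot action of a simple reflection -/
def dot (i : Fin Q.n) (u : Fin Q.n → ℤ) : Fin Q.n → ℤ :=
  u + pairing Q w u (sr Q i) • sr Q i

theorem dot_eq (i : Fin Q.n) (u : Fin Q.n → ℤ) :
    u + Pi.single i (pairing Q w u (Pi.single i 1)) = dot Q w i u := by
  rw [single_eq]; rfl

theorem refl_eq (i : Fin Q.n) (β : Fin Q.n → ℤ) :
    refl Q i β = β - form Q β (sr Q i) • sr Q i := by
  unfold H38.refl
  rw [single_eq]

theorem pairing_dot (i : Fin Q.n) (u α : Fin Q.n → ℤ) :
    pairing Q w (dot Q w i u) α = pairing Q w u (refl Q i α) := by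
  rw [dot, pairing_add_smul, refl_eq, pairing_sub_smul]; ring

theorem refl_refl (hQ : ∀ e, Q.hd e ≠ Q.tl e) (i : Fin Q.n) (β : Fin Q.n → ℤ) :
    refl Q i (refl Q i β) = β := by
  rw [refl_eq, refl_eq, form_sub_left, form_smul_left, form_sr_self Q hQ]
  ext k
  simp only [Pi.sub_apply, Pi.smul_apply, smul_eq_mul]
  ring

theorem up_step {u : Fin Q.n → ℤ} {i : Fin Q.n} (h : Up Q w u)
    (hp : 0 < pairing Q w u (sr Q i)) : Up Q w (dot Q w i u) := by
  rw [← dot_eq]
  exact Up.step u i h hp

theorem up_nonneg {u : Fin Q.n → ℤ} (h : Up Q w u) : 0 ≤ u := by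
  induction h with
  | zero => exact le_rfl
  | step u i _ hp ih =>
    rw [single_eq]
    exact add_nonneg ih (smul_nonneg hp.le (sr_nonneg Q i))

theorem sum_add_smul (u : Fin Q.n → ℤ) (c : ℤ) (i : Fin Q.n) :
    ∑ k, (u + c • sr Q i) k = ∑ k, u k + c := by
  simp only [Pi.add_apply, Pi.smul_apply, smul_eq_mul, Finset.sum_add_distrib]
  congr 1
  rw [Finset.sum_eq_single i]
  · simp [sr]
  · intro k _ hk; simp [sr, hk]
  · simp

theorem sum_dot (u : Fin Q.n → ℤ) (i : Fin Q.n) :
    ∑ k, dot Q w i u k = ∑ k, u k + pairing Q w u (sr Q i) := sum_add_smul Q u _ i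

theorem up_sum_nonneg {u : Fin Q.n → ℤ} (h : Up Q w u) : 0 ≤ ∑ k, u k :=
  Finset.sum_nonneg fun k _ => up_nonneg Q w h k

theorem pairing_dot_sr (i j : Fin Q.n) (u : Fin Q.n → ℤ) :
    pairing Q w (dot Q w i u) (sr Q j) =
      pairing Q w u (sr Q j) - pairing Q w u (sr Q i) * form Q (sr Q j) (sr Q i) := by
  rw [dot, pairing_add_smul]

theorem descent (hQ : ∀ e, Q.hd e ≠ Q.tl e) (N : ℤ)
    (ih : ∀ v, Up Q w v → ∑ k, v k < N → ∀ i, pairing Q w v (sr Q i) < 0 → Up Q w (dot Q w i v))
    (n : ℕ) : ∀ (v : Fin Q.n → ℤ) (i j : Fin Q.n), form Q (sr Q i) (sr Q j) ≤ -2 → Up Q w v →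
      ∑ k, v k < N → ∑ k, v k < n → 0 < pairing Q w v (sr Q j) →
      pairing Q w v (sr Q i) + pairing Q w v (sr Q j) < 0 → False := by
  induction n with
  | zero =>
    intro v i j _ hv _ h2 _ _
    have := up_sum_nonneg Q w hv
    simp only [Nat.cast_zero] at h2
    omega
  | succ n ihn =>
    intro v i j hm hv h1 h2 hq hp
    have hneg : pairing Q w v (sr Q i) < 0 := by omega
    have hv' := ih v hv h1 i hneg
    have hs := sum_dot Q w v i
    have e1 := pairing_dot_sr Q w i i v
    have e2 := pairing_dot_sr Q w i j v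
    rw [form_sr_self Q hQ] at e1
    rw [form_symm Q (sr Q j)] at e2
    refine ihn (dot Q w i v) j i (by rwa [form_symm]) hv' (by omega) (by push_cast at h2; omega)
      (by omega) ?_
    rw [e1, e2]
    nlinarith

theorem up_down (hQ : ∀ e, Q.hd e ≠ Q.tl e) (n : ℕ) :
    ∀ u, Up Q w u → ∑ k, u k < n → ∀ i, pairing Q w u (sr Q i) < 0 → Up Q w (dot Q w i u) := by
  induction n with
  | zero =>
    intro u hu h
    have := up_sum_nonneg Q w hu
    simp only [Nat.cast_zero] at h
    omega
  | succ n ih =>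
    intro u hu hn i hi
    cases hu with
    | zero =>
      exfalso
      have : pairing Q w 0 (sr Q i) = ∑ k, sr Q i k * w k := by
        unfold pairing; rw [form_zero_right, sub_zero]
      have h2 : 0 ≤ ∑ k, sr Q i k * (w k : ℤ) :=
        Finset.sum_nonneg fun k _ => mul_nonneg (sr_nonneg Q i k) (Int.natCast_nonneg _)
      omega
    | step u0 j h0 hp =>
      rw [dot_eq] at hn hi ⊢
      change 0 < pairing Q w u0 (sr Q j) at hp
      have hs := sum_dot Q w u0 j
      push_cast at hn
      have hn0 : ∑ k, u0 k < n := by omega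
      by_cases hij : i = j
      · subst hij
        have : dot Q w i (dot Q w i u0) = u0 := by
          rw [dot, pairing_dot_sr, form_sr_self Q hQ, dot]
          ext k
          simp only [Pi.add_apply, Pi.smul_apply, smul_eq_mul]
          ring
        rwa [this]
      have hm := form_sr_ne Q hij
      have e0 := pairing_dot_sr Q w j i u0
      have hneg : pairing Q w u0 (sr Q i) < 0 := by nlinarith
      have h1 := ih u0 h0 hn0 i hneg
      have hs1 := sum_dot Q w u0 i
      have e1 := pairing_dot_sr Q w i i u0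
      have e2 := pairing_dot_sr Q w i j u0
      rw [form_sr_self Q hQ] at e1
      rw [form_symm Q (sr Q j)] at e2
      rcases (by omega : form Q (sr Q i) (sr Q j) = 0 ∨ form Q (sr Q i) (sr Q j) = -1 ∨
          form Q (sr Q i) (sr Q j) ≤ -2) with hm0 | hm1 | hm2
      · rw [hm0] at e0 e2
        have h2 := up_step Q w h1 (i := j) (by omega)
        have : dot Q w j (dot Q w i u0) = dot Q w i (dot Q w j u0) := by
          rw [dot, e2, dot, dot, e0, dot]
          ext k
          simp only [Pi.add_apply, Pi.smul_apply, smul_eq_mul]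
          ring
        rwa [this] at h2
      · rw [hm1] at e0 e2
        have h2 := ih _ h1 (by omega) j (by omega)
        have e3 := pairing_dot_sr Q w j j (dot Q w i u0)
        have e4 := pairing_dot_sr Q w j i (dot Q w i u0)
        rw [form_sr_self Q hQ] at e3
        rw [hm1] at e4
        have h3 := up_step Q w h2 (i := i) (by omega)
        have e5 := pairing_dot_sr Q w i j (dot Q w j (dot Q w i u0))
        rw [form_symm Q (sr Q j), hm1] at e5
        have h4 := up_step Q w h3 (i := j) (by omega)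
        have : dot Q w j (dot Q w i (dot Q w j (dot Q w i u0))) = dot Q w i (dot Q w j u0) := by
          rw [dot, e5, dot, e4, e3, dot, e2, e1, dot, dot, e0, dot]
          ext k
          simp only [Pi.add_apply, Pi.smul_apply, smul_eq_mul]
          ring
        rwa [this] at h4
      · exfalso
        refine descent Q w hQ n ih n u0 i j hm2 h0 hn0 hn0 hp ?_
        nlinarith

theorem up_dot (hQ : ∀ e, Q.hd e ≠ Q.tl e) {u : Fin Q.n → ℤ} (hu : Up Q w u) (i : Fin Q.n) :
    Up Q w (dot Q w i u) := by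
  rcases lt_trichotomy (pairing Q w u (sr Q i)) 0 with h | h | h
  · exact up_down Q w hQ ((∑ k, u k).toNat + 1) u hu (by push_cast; omega) i h
  · rwa [dot, h, zero_smul, add_zero]
  · exact up_step Q w hu h

theorem up_of_orbit (hQ : ∀ e, Q.hd e ≠ Q.tl e) {u : Fin Q.n → ℤ} (hu : InOrbit Q w u) :
    Up Q w u := by
  unfold InOrbit at hu
  induction hu with
  | refl => exact Up.zero
  | tail _ h ih =>
    obtain ⟨i, rfl⟩ := h
    rw [dot_eq]
    exact up_dot Q w hQ ih i

theorem real_orbit (hQ : ∀ e, Q.hd e ≠ Q.tl e) {b : Fin Q.n → ℤ} (hb : IsRealRoot Q b) :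
    ∀ u, Relation.ReflTransGen
      (fun u u' : Fin Q.n → ℤ => ∃ i, u' = u + Pi.single i (pairing Q w u (Pi.single i 1))) u
      (u + pairing Q w u b • b) := by
  obtain ⟨j, hj⟩ := hb
  induction hj with
  | refl =>
    intro u
    exact Relation.ReflTransGen.single ⟨j, by rw [single_eq Q j (pairing Q w u _)]⟩
  | @tail b b' _ h ih =>
    obtain ⟨i, rfl⟩ := h
    intro u
    change Relation.ReflTransGen _ u (u + pairing Q w u (refl Q i b) • refl Q i b)
    refine Relation.ReflTransGen.head ⟨i, rfl⟩ ?_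
    rw [dot_eq]
    refine (ih (dot Q w i u)).tail ⟨i, ?_⟩
    rw [dot_eq, pairing_dot, dot, pairing_add_smul, pairing_dot_sr, form_sr_self Q hQ, dot,
      form_symm Q (sr Q i) b]
    generalize pairing Q w u (refl Q i b) = c
    rw [refl_eq]
    ext k
    simp only [Pi.add_apply, Pi.sub_apply, Pi.smul_apply, smul_eq_mul]
    ring

theorem real_sign (hQ : ∀ e, Q.hd e ≠ Q.tl e) {b : Fin Q.n → ℤ} (hb : IsRealRoot Q b) :
    0 ≤ b ∨ b ≤ 0 := by
  have key : ∀ l k, 0 ≤ b l * b k := by
    intro l k
    have h := real_orbit Q (Pi.single l 1) hQ hb 0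
    have h2 := up_nonneg Q _ (up_of_orbit Q (Pi.single l 1) hQ h) k
    have h3 : pairing Q (Pi.single l 1) 0 b = b l := by
      unfold pairing
      rw [form_zero_right, sub_zero, Finset.sum_eq_single l]
      · simp
      · intro m _ hm; simp [hm]
      · simp
    rw [h3] at h2
    simpa using h2
  by_contra hc
  rw [not_or] at hc
  obtain ⟨h1, h2⟩ := hc
  rw [Pi.le_def, not_forall] at h1 h2
  obtain ⟨l, hl⟩ := h1
  obtain ⟨k, hk⟩ := h2
  simp only [Pi.zero_apply, not_le] at hl hk
  have := key l k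
  nlinarith

theorem real_form (hQ : ∀ e, Q.hd e ≠ Q.tl e) {b : Fin Q.n → ℤ} (hb : IsRealRoot Q b) :
    form Q b b = 2 := by
  obtain ⟨j, hj⟩ := hb
  induction hj with
  | refl => exact form_sr_self Q hQ j
  | @tail b b' _ h ih =>
    obtain ⟨i, rfl⟩ := h
    change form Q (refl Q i b) (refl Q i b) = 2
    rw [refl_eq, form_sub_left, form_sub_right, form_sub_right, form_smul_left, form_smul_left,
      form_smul_right, form_smul_right, form_sr_self Q hQ, form_symm Q (sr Q i) b, ih]
    ring

theorem real_refl {b : Fin Q.n → ℤ} (hb : IsRealRoot Q b) (i : Fin Q.n) :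
    IsRealRoot Q (refl Q i b) := by
  obtain ⟨j, hj⟩ := hb
  exact ⟨j, hj.tail ⟨i, rfl⟩⟩

theorem eq_smul_of_refl {b : Fin Q.n → ℤ} {i : Fin Q.n} (h0 : 0 ≤ b) (h1 : refl Q i b ≤ 0) :
    b = b i • sr Q i := by
  ext k
  by_cases h : k = i
  · subst h; simp [sr]
  · have h2 := h1 k
    have h3 := h0 k
    rw [refl_eq] at h2
    simp only [Pi.sub_apply, Pi.smul_apply, smul_eq_mul, sr, Pi.single_eq_of_ne h, mul_zero,
      sub_zero, Pi.zero_apply] at h2 h3 ⊢
    omega

theorem weyl : WeylStmt := by
  intro Q hQ w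
  refine ⟨fun u hu => up_of_orbit Q w hQ hu, ?_, ?_, ?_⟩
  · ext α
    simp only [negZ, Set.mem_ofPred_eq, Set.mem_empty_iff_false, iff_false, not_and, not_lt]
    intro h0 _
    unfold pairing
    rw [form_zero_right, sub_zero]
    exact Finset.sum_nonneg fun k _ => mul_nonneg (h0 k) (Int.natCast_nonneg _)
  · intro α hα h
    have := real_form Q hQ hα
    rw [h, form_zero_right] at this
    omega
  · intro u i hp
    rw [dot_eq]
    change 0 < pairing Q w u (sr Q i) at hp
    ext α
    simp only [negZ, Set.mem_ofPred_eq, Set.mem_insert_iff, Set.mem_image]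
    constructor
    · rintro ⟨h0, hr, hn⟩
      rcases real_sign Q hQ (real_refl Q hr i) with h1 | h1
      · right
        exact ⟨refl Q i α, ⟨h1, real_refl Q hr i, by rwa [← pairing_dot]⟩, refl_refl Q hQ i α⟩
      · left
        have h2 := eq_smul_of_refl Q h0 h1
        have h3 := real_form Q hQ hr
        rw [h2, form_smul_left, form_smul_right, form_sr_self Q hQ] at h3
        have h4 : 0 ≤ α i := h0 i
        have h5 : α i = 1 := by nlinarith
        rw [h2, h5, one_smul]
    · rintro (rfl | ⟨β, ⟨h0, hr, hn⟩, rfl⟩)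
      · refine ⟨sr_nonneg Q i, ⟨i, Relation.ReflTransGen.refl⟩, ?_⟩
        change pairing Q w (dot Q w i u) (sr Q i) < 0
        rw [pairing_dot_sr, form_sr_self Q hQ]
        omega
      · refine ⟨?_, real_refl Q hr i, by rwa [pairing_dot, refl_refl Q hQ]⟩
        rcases real_sign Q hQ (real_refl Q hr i) with h1 | h1
        · exact h1
        · exfalso
          have h2 := eq_smul_of_refl Q h0 h1
          rw [h2, pairing_smul] at hn
          have h4 : 0 ≤ β i := h0 i
          nlinarith

end Pool.Agent.MP_8be872_ag.H86
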